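import Pool.Agent.H74.PP.Targets

/-!
# PP module MV: mean values of sums with separated frequencies
-/

set_option autoImplicit false

open Complex MeasureTheory Set

namespace Pool.Agent.H39.PP

open Pool.Agent.H74.PP

lemma exp_int (θ T₁ T₂ : ℝ) (hθ : θ ≠ 0) :
    ‖∫ t in T₁..T₂, cexp (-((θ : ℂ) * t) * I)‖ ≤ 2 / |θ| := by
  have hc : -((θ : ℂ) * I) ≠ 0 := by
    simp [hθ]
  have e : ∀ t : ℝ, cexp (-((θ : ℂ) * t) * I) = cexp (-((θ : ℂ) * I) * t) := fun t => by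
    congr 1
    ring
  simp_rw [e]
  rw [integral_exp_mul_complex hc, norm_div]
  have hn : ‖-((θ : ℂ) * I)‖ = |θ| := by simp
  rw [hn]
  gcongr
  refine (norm_sub_le _ _).trans ?_
  have h1 : ∀ t : ℝ, ‖cexp (-((θ : ℂ) * I) * t)‖ = 1 := fun t => by
    rw [← e]
    have : -((θ : ℂ) * t) * I = ((-(θ * t) : ℝ) : ℂ) * I := by push_cast; ring
    rw [this, Complex.norm_exp_ofReal_mul_I]
  rw [h1, h1]
  norm_num

/-- the bilinear version -/
lemma bil (s : Finset ℕ) (c c' : ℕ → ℂ) (φ : ℕ → ℝ) (g T₁ T₂ : ℝ) (hg : 0 < g)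
    (hsep : ∀ m ∈ s, ∀ n ∈ s, m ≠ n → g ≤ |φ m - φ n|) :
    ‖(∫ t in T₁..T₂, (∑ n ∈ s, c n * cexp (-(φ n * t) * I)) *
        (starRingEnd ℂ) (∑ n ∈ s, c' n * cexp (-(φ n * t) * I))) -
      (T₂ - T₁ : ℝ) * ∑ n ∈ s, c n * (starRingEnd ℂ) (c' n)‖ ≤
      2 / g * ((∑ n ∈ s, ‖c n‖) * (∑ n ∈ s, ‖c' n‖)) := by
  have e1 : ∀ t : ℝ, (∑ n ∈ s, c n * cexp (-(φ n * t) * I)) *
        (starRingEnd ℂ) (∑ n ∈ s, c' n * cexp (-(φ n * t) * I)) =
      ∑ m ∈ s, ∑ n ∈ s, c m * (starRingEnd ℂ) (c' n) * cexp (-(((φ m - φ n : ℝ) : ℂ) * t) * I) := by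
    intro t
    rw [map_sum, Finset.sum_mul_sum]
    refine Finset.sum_congr rfl fun m _ => Finset.sum_congr rfl fun n _ => ?_
    rw [map_mul, ← Complex.exp_conj]
    have e2 : (starRingEnd ℂ) (-((φ n : ℂ) * t) * I) = (φ n : ℂ) * t * I := by
      simp
    rw [e2]
    have e3 : c m * cexp (-((φ m : ℂ) * t) * I) * ((starRingEnd ℂ) (c' n) *
        cexp ((φ n : ℂ) * t * I)) = c m * (starRingEnd ℂ) (c' n) *
          (cexp (-((φ m : ℂ) * t) * I) * cexp ((φ n : ℂ) * t * I)) := by ring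
    rw [e3, ← Complex.exp_add]
    congr 2
    push_cast
    ring
  have hc : ∀ θ : ℝ, Continuous fun t : ℝ => cexp (-((θ : ℂ) * t) * I) := fun θ => by fun_prop
  have e4 : ∫ t in T₁..T₂, (∑ n ∈ s, c n * cexp (-(φ n * t) * I)) *
        (starRingEnd ℂ) (∑ n ∈ s, c' n * cexp (-(φ n * t) * I)) =
      ∑ m ∈ s, ∑ n ∈ s, c m * (starRingEnd ℂ) (c' n) *
        ∫ t in T₁..T₂, cexp (-(((φ m - φ n : ℝ) : ℂ) * t) * I) := by
    simp_rw [e1]
    rw [intervalIntegral.integral_finsetSum]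
    · refine Finset.sum_congr rfl fun m _ => ?_
      rw [intervalIntegral.integral_finsetSum]
      · refine Finset.sum_congr rfl fun n _ => ?_
        rw [intervalIntegral.integral_const_mul]
      · intro n _
        exact ((hc _).const_mul _).intervalIntegrable _ _
    · intro m _
      exact (continuous_finsetSum _ fun n _ => (hc _).const_mul _).intervalIntegrable _ _
  have e5 : ((T₂ - T₁ : ℝ) : ℂ) * ∑ n ∈ s, c n * (starRingEnd ℂ) (c' n) =
      ∑ m ∈ s, ∑ n ∈ s, if m = n then ((T₂ - T₁ : ℝ) : ℂ) * (c m * (starRingEnd ℂ) (c' n))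
        else 0 := by
    rw [Finset.mul_sum]
    refine Finset.sum_congr rfl fun m hm => ?_
    rw [Finset.sum_ite_eq, if_pos hm]
  rw [e4, e5, ← Finset.sum_sub_distrib]
  calc ‖∑ m ∈ s, ((∑ n ∈ s, c m * (starRingEnd ℂ) (c' n) *
        ∫ t in T₁..T₂, cexp (-(((φ m - φ n : ℝ) : ℂ) * t) * I)) -
        ∑ n ∈ s, if m = n then ((T₂ - T₁ : ℝ) : ℂ) * (c m * (starRingEnd ℂ) (c' n)) else 0)‖
      ≤ ∑ m ∈ s, ∑ n ∈ s, 2 / g * (‖c m‖ * ‖c' n‖) := by
        refine (norm_sum_le _ _).trans (Finset.sum_le_sum fun m hm => ?_)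
        rw [← Finset.sum_sub_distrib]
        refine (norm_sum_le _ _).trans (Finset.sum_le_sum fun n hn => ?_)
        by_cases h : m = n
        · subst h
          rw [if_pos rfl, sub_self]
          have : ∫ t in T₁..T₂, cexp (-(((0 : ℝ) : ℂ) * t) * I) = ((T₂ - T₁ : ℝ) : ℂ) := by
            simp
          rw [this, mul_comm, sub_self, norm_zero]
          positivity
        · rw [if_neg h, sub_zero, norm_mul, norm_mul, RCLike.norm_conj]
          have h1 := hsep m hm n hn h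
          have h2 : φ m - φ n ≠ 0 := by
            intro h0
            rw [h0, abs_zero] at h1
            linarith
          calc ‖c m‖ * ‖c' n‖ * ‖∫ t in T₁..T₂, cexp (-(((φ m - φ n : ℝ) : ℂ) * t) * I)‖
              ≤ ‖c m‖ * ‖c' n‖ * (2 / |φ m - φ n|) := by
                gcongr
                exact exp_int _ _ _ h2
            _ ≤ ‖c m‖ * ‖c' n‖ * (2 / g) := by gcongr
            _ = 2 / g * (‖c m‖ * ‖c' n‖) := by ring
    _ = 2 / g * ((∑ n ∈ s, ‖c n‖) * (∑ n ∈ s, ‖c' n‖)) := by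
        rw [Finset.sum_mul_sum, Finset.mul_sum]
        refine Finset.sum_congr rfl fun m _ => ?_
        rw [Finset.mul_sum]

theorem mv : T_MV := by
  intro s c φ g T₁ T₂ hg _ hsep
  have h := bil s c c φ g T₁ T₂ hg hsep
  have e1 : ∫ t in T₁..T₂, (∑ n ∈ s, c n * cexp (-(φ n * t) * I)) *
        (starRingEnd ℂ) (∑ n ∈ s, c n * cexp (-(φ n * t) * I)) =
      ((∫ t in T₁..T₂, ‖∑ n ∈ s, c n * cexp (-(φ n * t) * I)‖ ^ 2 : ℝ) : ℂ) := by
    rw [← intervalIntegral.integral_ofReal]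
    refine intervalIntegral.integral_congr fun t _ => ?_
    rw [Complex.mul_conj, Complex.normSq_eq_norm_sq]
  have e2 : ∑ n ∈ s, c n * (starRingEnd ℂ) (c n) = ((∑ n ∈ s, ‖c n‖ ^ 2 : ℝ) : ℂ) := by
    push_cast
    refine Finset.sum_congr rfl fun n _ => ?_
    rw [Complex.mul_conj, Complex.normSq_eq_norm_sq]
    push_cast
    rfl
  rw [e1, e2, ← Complex.ofReal_mul, ← Complex.ofReal_sub, Complex.norm_real,
    Real.norm_eq_abs] at h
  rw [sq (∑ n ∈ s, ‖c n‖)]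
  exact h

end Pool.Agent.H39.PP
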