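import Pool.Agent.H74.PP.Targets
import Pool.Agent.H22.MR.Cheb
import Pool.Agent.H39.PP.MV

/-!
# PP modules P4 and PE: fourth moment of the prime side, cross terms with equal dilations
-/

set_option autoImplicit false

open Complex MeasureTheory Set

namespace Pool.Agent.H39.PP

open Pool.Agent.H74.PP
open Pool.Agent.H23.GLH (PrimChar)
open Pool.Agent.H28.MZ (co)

lemma co_le (π : PrimChar) (n : ℕ) : ‖co π n‖ ≤ 1 := by
  unfold co
  split_ifs with h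
  · simp
  · have := π.q_ne
    exact DirichletCharacter.norm_le_one π.χ _

lemma kk_nonneg (x : ℝ) : 0 ≤ kk x :=
  mul_nonneg (Real.smoothTransition.nonneg _) (Real.smoothTransition.nonneg _)

lemma kk_le (x : ℝ) : kk x ≤ 1 :=
  mul_le_one₀ (Real.smoothTransition.le_one _) (Real.smoothTransition.nonneg _)
    (Real.smoothTransition.le_one _)

/-- the primes up to `e^l` -/
noncomputable def Sl (l : ℝ) : Finset ℕ := (Finset.Icc 1 ⌊Real.exp l⌋₊).filter Nat.Prime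

/-- the coefficient of `p^{-iat}` in `Pp π l (a t + τ)` -/
noncomputable def cp (π : PrimChar) (l τ : ℝ) (p : ℕ) : ℂ :=
  (1 / l : ℝ) * (((Real.log p * (p : ℝ) ^ (-(1 / 2 : ℝ)) * kk (Real.log p / l) : ℝ) : ℂ) *
    co π p * (p : ℂ) ^ (-(τ * I)))

lemma mem_Sl {l : ℝ} {p : ℕ} (h : p ∈ Sl l) :
    p.Prime ∧ 1 ≤ p ∧ (p : ℝ) ≤ Real.exp l ∧ Real.log p ≤ l := by
  unfold Sl at h
  rw [Finset.mem_filter, Finset.mem_Icc] at h
  obtain ⟨⟨h1, h2⟩, h3⟩ := h
  have h4 : (p : ℝ) ≤ Real.exp l := (Nat.le_floor_iff (Real.exp_pos l).le).1 h2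
  refine ⟨h3, h1, h4, ?_⟩
  have := Real.log_le_log (by exact_mod_cast h1) h4
  rwa [Real.log_exp] at this

lemma cpow_split (a τ t : ℝ) (n : ℕ) (hn : 1 ≤ n) :
    (n : ℂ) ^ (-(((a * t + τ : ℝ) : ℂ) * I)) =
      (n : ℂ) ^ (-((τ : ℂ) * I)) * cexp (-(((a * Real.log n : ℝ) : ℂ) * t) * I) := by
  have hn0 : (n : ℂ) ≠ 0 := by
    have : n ≠ 0 := by omega
    exact_mod_cast this
  rw [Complex.cpow_def_of_ne_zero hn0, Complex.cpow_def_of_ne_zero hn0, ← Complex.exp_add]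
  congr 1
  rw [← Complex.natCast_log]
  push_cast
  ring

lemma Pp_eq (π : PrimChar) (l a τ t : ℝ) : Pp π l (a * t + τ) =
    ∑ p ∈ Sl l, cp π l τ p * cexp (-(((a * Real.log p : ℝ) : ℂ) * t) * I) := by
  unfold Pp cp
  rw [Finset.mul_sum]
  refine Finset.sum_congr rfl fun p hp => ?_
  rw [cpow_split a τ t p (mem_Sl hp).2.1]
  ring

lemma norm_cpow_I (τ : ℝ) (p : ℕ) (hp : 1 ≤ p) : ‖(p : ℂ) ^ (-((τ : ℂ) * I))‖ = 1 := by
  rw [Complex.norm_natCast_cpow_of_pos hp]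
  simp

lemma cp_norm {π : PrimChar} {l : ℝ} (τ : ℝ) (hl : 0 < l) {p : ℕ} (hp : p ∈ Sl l) :
    ‖cp π l τ p‖ ≤ (1 / l) * (Real.log p * (p : ℝ) ^ (-(1 / 2 : ℝ))) := by
  obtain ⟨_, h1, _, _⟩ := mem_Sl hp
  have hlog : 0 ≤ Real.log p := Real.log_nonneg (by exact_mod_cast h1)
  have hpw : 0 ≤ (p : ℝ) ^ (-(1 / 2 : ℝ)) := by positivity
  unfold cp
  rw [norm_mul, norm_mul, norm_mul, norm_cpow_I τ p h1, mul_one, Complex.norm_real,
    Complex.norm_real, Real.norm_of_nonneg (by positivity : (0 : ℝ) ≤ 1 / l),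
    Real.norm_of_nonneg (mul_nonneg (mul_nonneg hlog hpw) (kk_nonneg _))]
  refine mul_le_mul_of_nonneg_left ?_ (by positivity)
  calc Real.log p * (p : ℝ) ^ (-(1 / 2 : ℝ)) * kk (Real.log p / l) * ‖co π p‖
      ≤ Real.log p * (p : ℝ) ^ (-(1 / 2 : ℝ)) * 1 * 1 := by
        gcongr
        · exact kk_le _
        · exact co_le _ _
    _ = Real.log p * (p : ℝ) ^ (-(1 / 2 : ℝ)) := by ring

lemma cp_le_one {π : PrimChar} {l : ℝ} (τ : ℝ) (hl : 0 < l) {p : ℕ} (hp : p ∈ Sl l) :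
    ‖cp π l τ p‖ ≤ 1 := by
  refine (cp_norm τ hl hp).trans ?_
  obtain ⟨_, h1, _, h3⟩ := mem_Sl hp
  have hlog : 0 ≤ Real.log p := Real.log_nonneg (by exact_mod_cast h1)
  have hpw : (p : ℝ) ^ (-(1 / 2 : ℝ)) ≤ 1 :=
    Real.rpow_le_one_of_one_le_of_nonpos (by exact_mod_cast h1) (by norm_num)
  calc (1 / l) * (Real.log p * (p : ℝ) ^ (-(1 / 2 : ℝ))) ≤ (1 / l) * (l * 1) := by gcongr
    _ = 1 := by field_simp

lemma card_Sl (l : ℝ) : ((Sl l).card : ℝ) ≤ Real.exp l := by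
  have h1 : (Sl l).card ≤ ⌊Real.exp l⌋₊ := by
    unfold Sl
    refine (Finset.card_filter_le _ _).trans ?_
    simp
  calc ((Sl l).card : ℝ) ≤ (⌊Real.exp l⌋₊ : ℝ) := by exact_mod_cast h1
    _ ≤ Real.exp l := Nat.floor_le (Real.exp_pos l).le

lemma sum_cp (π : PrimChar) {l : ℝ} (τ : ℝ) (hl : 0 < l) :
    ∑ p ∈ Sl l, ‖cp π l τ p‖ ≤ Real.exp l := by
  calc ∑ p ∈ Sl l, ‖cp π l τ p‖ ≤ ∑ p ∈ Sl l, (1 : ℝ) :=
        Finset.sum_le_sum fun p hp => cp_le_one τ hl hp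
    _ = (Sl l).card := by simp
    _ ≤ Real.exp l := card_Sl l

lemma sum_cp_sq (π : PrimChar) {l : ℝ} (τ : ℝ) (hl : 1 ≤ l) :
    ∑ p ∈ Sl l, ‖cp π l τ p‖ ^ 2 ≤ 7 := by
  have hl0 : 0 < l := by linarith
  have h1 : ∀ p ∈ Sl l, ‖cp π l τ p‖ ^ 2 ≤ (1 / l) * (ArithmeticFunction.vonMangoldt p / p) := by
    intro p hp
    obtain ⟨hpr, h1, _, h3⟩ := mem_Sl hp
    have hlog : 0 ≤ Real.log p := Real.log_nonneg (by exact_mod_cast h1)
    have hp0 : (0 : ℝ) < p := by exact_mod_cast h1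
    rw [ArithmeticFunction.vonMangoldt_apply_prime hpr]
    have h4 : ((p : ℝ) ^ (-(1 / 2 : ℝ))) ^ 2 = 1 / p := by
      rw [← Real.rpow_natCast, ← Real.rpow_mul hp0.le]
      norm_num
      rw [Real.rpow_neg_one]
    calc ‖cp π l τ p‖ ^ 2 ≤ ((1 / l) * (Real.log p * (p : ℝ) ^ (-(1 / 2 : ℝ)))) ^ 2 := by
          gcongr
          exact cp_norm τ hl0 hp
      _ = (1 / l) ^ 2 * (Real.log p * Real.log p) * (1 / p) := by rw [← h4]; ring
      _ ≤ (1 / l) ^ 2 * (l * Real.log p) * (1 / p) := by gcongr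
      _ = (1 / l) * (Real.log p / p) := by field_simp
  have h2 : ∑ p ∈ Sl l, (ArithmeticFunction.vonMangoldt p / p : ℝ) ≤ l + 6 := by
    calc ∑ p ∈ Sl l, (ArithmeticFunction.vonMangoldt p / p : ℝ)
        ≤ ∑ p ∈ Finset.Icc 1 ⌊Real.exp l⌋₊, (ArithmeticFunction.vonMangoldt p / p : ℝ) := by
          refine Finset.sum_le_sum_of_subset_of_nonneg (Finset.filter_subset _ _) fun p _ _ => ?_
          exact div_nonneg ArithmeticFunction.vonMangoldt_nonneg (Nat.cast_nonneg _)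
      _ ≤ Real.log (Real.exp l) + 6 :=
          Pool.Agent.H22.MR.mertens_le_real (Real.one_le_exp hl0.le)
      _ = l + 6 := by rw [Real.log_exp]
  calc ∑ p ∈ Sl l, ‖cp π l τ p‖ ^ 2
      ≤ ∑ p ∈ Sl l, (1 / l) * (ArithmeticFunction.vonMangoldt p / p : ℝ) := Finset.sum_le_sum h1
    _ = (1 / l) * ∑ p ∈ Sl l, (ArithmeticFunction.vonMangoldt p / p : ℝ) := by
        rw [Finset.mul_sum]
    _ ≤ (1 / l) * (l + 6) := by gcongr
    _ ≤ 7 := by
        rw [one_div, inv_mul_le_iff₀ hl0]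
        linarith

lemma log_sep_lt {m n : ℕ} (hm : 1 ≤ m) (h : m < n) {M : ℝ} (hn : (n : ℝ) ≤ M) :
    1 / M ≤ Real.log n - Real.log m := by
  have hm0 : (0 : ℝ) < m := by exact_mod_cast hm
  have hn0 : (0 : ℝ) < n := by exact_mod_cast (by omega : 0 < n)
  rw [← Real.log_div hn0.ne' hm0.ne']
  have h1 := Real.one_sub_inv_le_log_of_pos (div_pos hn0 hm0)
  refine le_trans ?_ h1
  rw [inv_div]
  have h2 : (m : ℝ) + 1 ≤ n := by exact_mod_cast h
  have h3 : (1 : ℝ) / n ≤ 1 - m / n := by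
    rw [le_sub_iff_add_le, ← add_div, div_le_one hn0]
    linarith
  exact (one_div_le_one_div_of_le hn0 hn).trans h3

lemma log_sep {m n : ℕ} (hm : 1 ≤ m) (hn : 1 ≤ n) (h : m ≠ n) {a M : ℝ} (ha : 0 < a)
    (hmM : (m : ℝ) ≤ M) (hnM : (n : ℝ) ≤ M) :
    a / M ≤ |a * Real.log m - a * Real.log n| := by
  rw [← mul_sub, abs_mul, abs_of_pos ha]
  have key : 1 / M ≤ |Real.log m - Real.log n| := by
    rcases lt_or_gt_of_ne h with h | h
    · rw [abs_sub_comm]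
      exact (log_sep_lt hm h hnM).trans (le_abs_self _)
    · exact (log_sep_lt hn h hmM).trans (le_abs_self _)
  calc a / M = a * (1 / M) := by ring
    _ ≤ a * |Real.log m - Real.log n| := by gcongr

lemma Qr_eq (π π' : PrimChar) (l τ τ' : ℝ) :
    ∑ p ∈ Sl l, cp π l τ p * (starRingEnd ℂ) (cp π' l τ' p) = Qr π π' l (τ - τ') := by
  unfold Qr cp
  rw [Finset.mul_sum]
  refine Finset.sum_congr rfl fun p hp => ?_
  obtain ⟨hpr, h1, _, _⟩ := mem_Sl hp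
  have hp0 : (0 : ℝ) < p := by exact_mod_cast h1
  have hpc : (p : ℂ) ≠ 0 := by exact_mod_cast hp0.ne'
  have h4 : (p : ℝ) ^ (-(1 / 2 : ℝ)) * (p : ℝ) ^ (-(1 / 2 : ℝ)) = 1 / p := by
    rw [← Real.rpow_add hp0]
    norm_num
    rw [Real.rpow_neg_one]
  have h5 : (p : ℂ) ^ (-((τ : ℂ) * I)) * (starRingEnd ℂ) ((p : ℂ) ^ (-((τ' : ℂ) * I))) =
      (p : ℂ) ^ (-(((τ - τ' : ℝ) : ℂ) * I)) := by
    have h6 : (starRingEnd ℂ) ((p : ℂ) ^ (-((τ' : ℂ) * I))) = (p : ℂ) ^ ((τ' : ℂ) * I) := by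
      rw [Complex.cpow_def_of_ne_zero hpc, Complex.cpow_def_of_ne_zero hpc, ← Complex.exp_conj]
      congr 1
      rw [← Complex.natCast_log, map_mul, Complex.conj_ofReal, map_neg, map_mul,
        Complex.conj_ofReal, Complex.conj_I]
      ring
    rw [h6, ← Complex.cpow_add _ _ hpc]
    congr 1
    push_cast
    ring
  have h7 : (starRingEnd ℂ) ((1 / l : ℝ) *
      (((Real.log p * (p : ℝ) ^ (-(1 / 2 : ℝ)) * kk (Real.log p / l) : ℝ) : ℂ) *
    co π' p * (p : ℂ) ^ (-((τ' : ℂ) * I)))) = (1 / l : ℝ) *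
      (((Real.log p * (p : ℝ) ^ (-(1 / 2 : ℝ)) * kk (Real.log p / l) : ℝ) : ℂ) *
    (starRingEnd ℂ) (co π' p) * (starRingEnd ℂ) ((p : ℂ) ^ (-((τ' : ℂ) * I)))) := by
    rw [map_mul, map_mul, map_mul, Complex.conj_ofReal, Complex.conj_ofReal]
  rw [h7, ← h5]
  have h8 : ((Real.log p ^ 2 / p * kk (Real.log p / l) ^ 2 : ℝ) : ℂ) =
      ((Real.log p * (p : ℝ) ^ (-(1 / 2 : ℝ)) * kk (Real.log p / l) : ℝ) : ℂ) *
      ((Real.log p * (p : ℝ) ^ (-(1 / 2 : ℝ)) * kk (Real.log p / l) : ℝ) : ℂ) := by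
    rw [← Complex.ofReal_mul]
    congr 1
    calc Real.log p ^ 2 / p * kk (Real.log p / l) ^ 2
        = Real.log p ^ 2 * (1 / p) * kk (Real.log p / l) ^ 2 := by ring
      _ = _ := by rw [← h4]; ring
  rw [h8]
  push_cast
  ring

lemma exp_le_sqrt {T l k : ℝ} (hT : 1 ≤ T) (h : k * l ≤ Real.log T / 2) :
    Real.exp (k * l) ≤ Real.sqrt T := by
  have hT0 : 0 < T := by linarith
  calc Real.exp (k * l) ≤ Real.exp (Real.log T / 2) := Real.exp_le_exp.2 h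
    _ = Real.sqrt T := by
        rw [Real.sqrt_eq_rpow, Real.rpow_def_of_pos hT0]
        congr 1
        ring

theorem pe : T_PE := by
  intro π π' a δ ε ha hδ hδa hε
  refine ⟨max (max 1 (Real.exp (a / δ))) ((2 / (a * ε)) ^ 2), fun T τ τ' hT => ?_⟩
  have hT1 : 1 ≤ T := (le_max_left _ _).trans ((le_max_left _ _).trans hT)
  have hT2 : Real.exp (a / δ) ≤ T := (le_max_right _ _).trans ((le_max_left _ _).trans hT)
  have hT3 : (2 / (a * ε)) ^ 2 ≤ T := (le_max_right _ _).trans hT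
  have hT0 : 0 < T := by linarith
  set l := δ * Real.log T / a with hl
  have hlogT : a / δ ≤ Real.log T := (Real.le_log_iff_exp_le hT0).2 hT2
  have hl1 : 1 ≤ l := by
    rw [hl, le_div_iff₀ ha, one_mul]
    calc a = δ * (a / δ) := by field_simp
      _ ≤ δ * Real.log T := by gcongr
  have hl0 : 0 < l := by linarith
  have hlog0 : 0 ≤ Real.log T := Real.log_nonneg hT1
  have hl2 : l ≤ Real.log T / 16 := by
    rw [hl, div_le_iff₀ ha]
    nlinarith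
  have hb := bil (Sl l) (cp π l τ) (cp π' l τ') (fun p => a * Real.log p) (a / Real.exp l)
    (5 * T / 4) (7 * T / 4) (by positivity) (fun m hm n hn hmn =>
      log_sep (mem_Sl hm).2.1 (mem_Sl hn).2.1 hmn ha (mem_Sl hm).2.2.1 (mem_Sl hn).2.2.1)
  simp_rw [← Pp_eq] at hb
  rw [Qr_eq] at hb
  have e : ((7 * T / 4 - 5 * T / 4 : ℝ) : ℂ) = (T : ℂ) / 2 := by
    push_cast
    ring
  rw [e] at hb
  refine hb.trans ?_
  have h1 := sum_cp π τ hl0
  have h2 := sum_cp π' τ' hl0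
  have h3 : Real.exp (3 * l) ≤ Real.sqrt T := exp_le_sqrt hT1 (by linarith)
  have h4 : 2 / (a * ε) ≤ Real.sqrt T := Real.le_sqrt_of_sq_le hT3
  calc 2 / (a / Real.exp l) * ((∑ n ∈ Sl l, ‖cp π l τ n‖) * ∑ n ∈ Sl l, ‖cp π' l τ' n‖)
      ≤ 2 / (a / Real.exp l) * (Real.exp l * Real.exp l) := by
        gcongr
    _ = 2 / a * Real.exp (3 * l) := by
        have : Real.exp (3 * l) = Real.exp l * (Real.exp l * Real.exp l) := by
          rw [← Real.exp_add, ← Real.exp_add]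
          congr 1
          ring
        rw [this]
        field_simp
    _ ≤ 2 / a * Real.sqrt T := by gcongr
    _ = ε * (2 / (a * ε)) * Real.sqrt T := by field_simp
    _ ≤ ε * Real.sqrt T * Real.sqrt T := by gcongr
    _ = ε * T := by rw [mul_assoc, Real.mul_self_sqrt hT0.le]

/-! ### The fourth moment -/

lemma fib_card (l : ℝ) (n : ℕ) :
    (((Sl l ×ˢ Sl l).filter (fun x => x.1 * x.2 = n)).card : ℝ) ≤ 2 := by
  rcases ((Sl l ×ˢ Sl l).filter (fun x => x.1 * x.2 = n)).eq_empty_or_nonempty with h | ⟨x, hx⟩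
  · rw [h]
    simp
  · have hsub : (Sl l ×ˢ Sl l).filter (fun x => x.1 * x.2 = n) ⊆ {x, x.swap} := by
      intro y hy
      rw [Finset.mem_filter, Finset.mem_product] at hx hy
      obtain ⟨⟨hx1, hx2⟩, hx3⟩ := hx
      obtain ⟨⟨hy1, hy2⟩, hy3⟩ := hy
      have px := (mem_Sl hx1).1
      have qx := (mem_Sl hx2).1
      have py := (mem_Sl hy1).1
      have qy := (mem_Sl hy2).1
      have hdvd : y.1 ∣ x.1 * x.2 := by
        rw [hx3, ← hy3]
        exact dvd_mul_right _ _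
      rw [Finset.mem_insert, Finset.mem_singleton]
      rcases (py.dvd_mul).1 hdvd with h | h
      · left
        have h1 : y.1 = x.1 := (Nat.prime_dvd_prime_iff_eq py px).1 h
        have h2 : x.1 * y.2 = x.1 * x.2 := by rw [hx3, ← h1, hy3]
        exact Prod.ext h1 (Nat.eq_of_mul_eq_mul_left px.pos h2)
      · right
        have h1 : y.1 = x.2 := (Nat.prime_dvd_prime_iff_eq py qx).1 h
        have h2 : x.2 * y.2 = x.2 * x.1 := by rw [mul_comm x.2 x.1, hx3, ← h1, hy3]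
        exact Prod.ext h1 (Nat.eq_of_mul_eq_mul_left qx.pos h2)
    have := (Finset.card_le_card hsub).trans (Finset.card_le_two)
    exact_mod_cast this

/-- the coefficients of the square -/
noncomputable def Cc (π : PrimChar) (l τ : ℝ) (n : ℕ) : ℂ :=
  ∑ x ∈ (Sl l ×ˢ Sl l).filter (fun x => x.1 * x.2 = n), cp π l τ x.1 * cp π l τ x.2

/-- the frequencies of the square -/
noncomputable def S2 (l : ℝ) : Finset ℕ := (Sl l ×ˢ Sl l).image (fun x => x.1 * x.2)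

lemma Pp_sq (π : PrimChar) (l a τ t : ℝ) : Pp π l (a * t + τ) ^ 2 =
    ∑ n ∈ S2 l, Cc π l τ n * cexp (-(((a * Real.log n : ℝ) : ℂ) * t) * I) := by
  rw [sq, Pp_eq, Finset.sum_mul_sum, ← Finset.sum_product']
  rw [← Finset.sum_fiberwise_of_maps_to (g := fun x : ℕ × ℕ => x.1 * x.2) (t := S2 l)
    (fun x hx => Finset.mem_image_of_mem _ hx)]
  refine Finset.sum_congr rfl fun n _ => ?_
  unfold Cc
  rw [Finset.sum_mul]
  refine Finset.sum_congr rfl fun x hx => ?_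
  rw [Finset.mem_filter, Finset.mem_product] at hx
  obtain ⟨⟨hx1, hx2⟩, hx3⟩ := hx
  have p1 : (0 : ℝ) < x.1 := by exact_mod_cast (mem_Sl hx1).2.1
  have p2 : (0 : ℝ) < x.2 := by exact_mod_cast (mem_Sl hx2).2.1
  have e : cexp (-(((a * Real.log n : ℝ) : ℂ) * t) * I) =
      cexp (-(((a * Real.log x.1 : ℝ) : ℂ) * t) * I) *
        cexp (-(((a * Real.log x.2 : ℝ) : ℂ) * t) * I) := by
    rw [← Complex.exp_add]
    congr 1
    have hlog : Real.log n = Real.log x.1 + Real.log x.2 := by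
      rw [← hx3]
      push_cast
      exact Real.log_mul p1.ne' p2.ne'
    rw [hlog]
    push_cast
    ring
  rw [e]
  ring

lemma Cc_sum (π : PrimChar) {l : ℝ} (τ : ℝ) (hl : 0 < l) :
    ∑ n ∈ S2 l, ‖Cc π l τ n‖ ≤ Real.exp l * Real.exp l := by
  calc ∑ n ∈ S2 l, ‖Cc π l τ n‖
      ≤ ∑ n ∈ S2 l, ∑ x ∈ (Sl l ×ˢ Sl l).filter (fun x => x.1 * x.2 = n),
          ‖cp π l τ x.1‖ * ‖cp π l τ x.2‖ := by
        refine Finset.sum_le_sum fun n _ => (norm_sum_le _ _).trans ?_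
        refine Finset.sum_le_sum fun x _ => ?_
        rw [norm_mul]
    _ = ∑ x ∈ Sl l ×ˢ Sl l, ‖cp π l τ x.1‖ * ‖cp π l τ x.2‖ :=
        Finset.sum_fiberwise_of_maps_to (g := fun x : ℕ × ℕ => x.1 * x.2) (t := S2 l)
          (fun x hx => Finset.mem_image_of_mem _ hx) _
    _ = (∑ p ∈ Sl l, ‖cp π l τ p‖) * (∑ p ∈ Sl l, ‖cp π l τ p‖) := by
        rw [Finset.sum_mul_sum, ← Finset.sum_product']
    _ ≤ Real.exp l * Real.exp l := by
        have := sum_cp π τ hl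
        gcongr

lemma Cc_sum_sq (π : PrimChar) {l : ℝ} (τ : ℝ) (hl : 1 ≤ l) :
    ∑ n ∈ S2 l, ‖Cc π l τ n‖ ^ 2 ≤ 98 := by
  calc ∑ n ∈ S2 l, ‖Cc π l τ n‖ ^ 2
      ≤ ∑ n ∈ S2 l, ∑ x ∈ (Sl l ×ˢ Sl l).filter (fun x => x.1 * x.2 = n),
          2 * (‖cp π l τ x.1‖ ^ 2 * ‖cp π l τ x.2‖ ^ 2) := by
        refine Finset.sum_le_sum fun n _ => ?_
        have h1 : ‖Cc π l τ n‖ ≤ ∑ x ∈ (Sl l ×ˢ Sl l).filter (fun x => x.1 * x.2 = n),
            ‖cp π l τ x.1‖ * ‖cp π l τ x.2‖ := by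
          refine (norm_sum_le _ _).trans (Finset.sum_le_sum fun x _ => ?_)
          rw [norm_mul]
        calc ‖Cc π l τ n‖ ^ 2 ≤ (∑ x ∈ (Sl l ×ˢ Sl l).filter (fun x => x.1 * x.2 = n),
              ‖cp π l τ x.1‖ * ‖cp π l τ x.2‖) ^ 2 := by gcongr
          _ ≤ ((Sl l ×ˢ Sl l).filter (fun x => x.1 * x.2 = n)).card *
              ∑ x ∈ (Sl l ×ˢ Sl l).filter (fun x => x.1 * x.2 = n),
                (‖cp π l τ x.1‖ * ‖cp π l τ x.2‖) ^ 2 := sq_sum_le_card_mul_sum_sq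
          _ ≤ 2 * ∑ x ∈ (Sl l ×ˢ Sl l).filter (fun x => x.1 * x.2 = n),
                (‖cp π l τ x.1‖ * ‖cp π l τ x.2‖) ^ 2 := by
              gcongr
              exact fib_card l n
          _ = _ := by
              rw [Finset.mul_sum]
              refine Finset.sum_congr rfl fun x _ => ?_
              ring
    _ = ∑ x ∈ Sl l ×ˢ Sl l, 2 * (‖cp π l τ x.1‖ ^ 2 * ‖cp π l τ x.2‖ ^ 2) :=
        Finset.sum_fiberwise_of_maps_to (g := fun x : ℕ × ℕ => x.1 * x.2) (t := S2 l)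
          (fun x hx => Finset.mem_image_of_mem _ hx) _
    _ = 2 * ((∑ p ∈ Sl l, ‖cp π l τ p‖ ^ 2) * (∑ p ∈ Sl l, ‖cp π l τ p‖ ^ 2)) := by
        rw [Finset.sum_mul_sum, ← Finset.sum_product', Finset.mul_sum]
    _ ≤ 2 * (7 * 7) := by
        have := sum_cp_sq π τ hl
        gcongr
    _ = 98 := by norm_num

lemma S2_mem {l : ℝ} {n : ℕ} (h : n ∈ S2 l) : 1 ≤ n ∧ (n : ℝ) ≤ Real.exp (2 * l) := by
  unfold S2 at h
  rw [Finset.mem_image] at h
  obtain ⟨x, hx, rfl⟩ := h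
  rw [Finset.mem_product] at hx
  obtain ⟨_, a1, a2, _⟩ := mem_Sl hx.1
  obtain ⟨_, b1, b2, _⟩ := mem_Sl hx.2
  refine ⟨Nat.one_le_iff_ne_zero.2 (by positivity), ?_⟩
  have e : Real.exp (2 * l) = Real.exp l * Real.exp l := by
    rw [← Real.exp_add]
    congr 1
    ring
  rw [e]
  push_cast
  gcongr

lemma Pp_cont (π : PrimChar) (l a τ : ℝ) : Continuous fun t : ℝ => Pp π l (a * t + τ) := by
  simp_rw [Pp_eq]
  fun_prop

lemma Pr_cont (π : PrimChar) (l a τ : ℝ) : Continuous fun t : ℝ => Pr π l (a * t + τ) := by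
  unfold Pr
  refine continuous_const.mul (continuous_finsetSum _ fun n hn => ?_)
  rw [Finset.mem_Icc] at hn
  simp_rw [cpow_split a τ _ n hn.1]
  fun_prop

theorem p4 (hPR : T_PR) : T_P4 := by
  obtain ⟨⟨C0, hC0, hPR1⟩, -⟩ := hPR
  refine ⟨8 * 99 + 8 * C0 ^ 4, by positivity, fun π a δ ha hδ hδa => ?_⟩
  refine ⟨max (max 1 (Real.exp (a / δ))) ((2 / a) ^ 2), fun T τ hT => ?_⟩
  have hT1 : 1 ≤ T := (le_max_left _ _).trans ((le_max_left _ _).trans hT)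
  have hT2 : Real.exp (a / δ) ≤ T := (le_max_right _ _).trans ((le_max_left _ _).trans hT)
  have hT3 : (2 / a) ^ 2 ≤ T := (le_max_right _ _).trans hT
  have hT0 : 0 < T := by linarith
  set l := δ * Real.log T / a with hl
  have hlogT : a / δ ≤ Real.log T := (Real.le_log_iff_exp_le hT0).2 hT2
  have hl1 : 1 ≤ l := by
    rw [hl, le_div_iff₀ ha, one_mul]
    calc a = δ * (a / δ) := by field_simp
      _ ≤ δ * Real.log T := by gcongr
  have hl0 : 0 < l := by linarith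
  have hlog0 : 0 ≤ Real.log T := Real.log_nonneg hT1
  have hl2 : l ≤ Real.log T / 16 := by
    rw [hl, div_le_iff₀ ha]
    nlinarith
  have hb := mv (S2 l) (Cc π l τ) (fun n => a * Real.log n) (a / Real.exp (2 * l)) T (2 * T)
    (by positivity) (by linarith) (fun m hm n hn hmn =>
      log_sep (S2_mem hm).1 (S2_mem hn).1 hmn ha (S2_mem hm).2 (S2_mem hn).2)
  simp_rw [← Pp_sq] at hb
  have h1 := Cc_sum π τ hl0
  have h2 := Cc_sum_sq π τ hl1
  have h3 : Real.exp (6 * l) ≤ Real.sqrt T := exp_le_sqrt hT1 (by linarith)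
  have h4 : 2 / a ≤ Real.sqrt T := Real.le_sqrt_of_sq_le hT3
  have hoff : 2 / (a / Real.exp (2 * l)) * (∑ n ∈ S2 l, ‖Cc π l τ n‖) ^ 2 ≤ T := by
    calc 2 / (a / Real.exp (2 * l)) * (∑ n ∈ S2 l, ‖Cc π l τ n‖) ^ 2
        ≤ 2 / (a / Real.exp (2 * l)) * (Real.exp l * Real.exp l) ^ 2 := by
          gcongr
      _ = 2 / a * Real.exp (6 * l) := by
          have : Real.exp (6 * l) = Real.exp (2 * l) * (Real.exp l * Real.exp l) ^ 2 := by
            rw [← Real.exp_add, ← Real.exp_nat_mul, ← Real.exp_add]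
            congr 1
            push_cast
            ring
          rw [this]
          field_simp
      _ ≤ Real.sqrt T * Real.sqrt T := by gcongr
      _ = T := Real.mul_self_sqrt hT0.le
  have hPp : ∫ t in T..(2 * T), ‖Pp π l (a * t + τ)‖ ^ 4 ≤ 99 * T := by
    have e : ∀ t : ℝ, ‖Pp π l (a * t + τ)‖ ^ 4 = ‖Pp π l (a * t + τ) ^ 2‖ ^ 2 := fun t => by
      rw [norm_pow, ← pow_mul]
    simp_rw [e]
    have h5 := (abs_le.1 hb).2
    have h6 : (2 * T - T) * ∑ n ∈ S2 l, ‖Cc π l τ n‖ ^ 2 ≤ T * 98 := by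
      have : 2 * T - T = T := by ring
      rw [this]
      gcongr
    linarith
  have hc4 : Continuous fun t : ℝ => ‖Pr π l (a * t + τ)‖ ^ 4 := (Pr_cont π l a τ).norm.pow 4
  have hc4' : Continuous fun t : ℝ => 8 * ‖Pp π l (a * t + τ)‖ ^ 4 + 8 * C0 ^ 4 :=
    (((Pp_cont π l a τ).norm.pow 4).const_mul 8).add continuous_const
  calc ∫ t in T..(2 * T), ‖Pr π l (a * t + τ)‖ ^ 4
      ≤ ∫ t in T..(2 * T), (8 * ‖Pp π l (a * t + τ)‖ ^ 4 + 8 * C0 ^ 4) := by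
        refine intervalIntegral.integral_mono_on (by linarith) (hc4.intervalIntegrable _ _)
          (hc4'.intervalIntegrable _ _) fun t _ => ?_
        have h7 := hPR1 π l (a * t + τ) hl1
        have h8 : ‖Pr π l (a * t + τ)‖ ≤ ‖Pp π l (a * t + τ)‖ + C0 := by
          have := norm_sub_norm_le (Pr π l (a * t + τ)) (Pp π l (a * t + τ))
          linarith
        have hx := norm_nonneg (Pp π l (a * t + τ))
        have h9 : ‖Pr π l (a * t + τ)‖ ^ 4 ≤ (‖Pp π l (a * t + τ)‖ + C0) ^ 4 := by gcongr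
        refine h9.trans ?_
        have key : ∀ x y : ℝ, 0 ≤ x → 0 ≤ y → (x + y) ^ 4 ≤ 8 * x ^ 4 + 8 * y ^ 4 := by
          intro x y _ _
          nlinarith [sq_nonneg (x - y), sq_nonneg (x ^ 2 - y ^ 2), sq_nonneg (x + y),
            mul_nonneg (sq_nonneg (x - y)) (sq_nonneg (x + y)), sq_nonneg (x * y),
            mul_nonneg (sq_nonneg (x - y)) (sq_nonneg (x - y)), sq_nonneg ((x-y)^2)]
        exact key _ _ hx hC0.le
    _ = 8 * (∫ t in T..(2 * T), ‖Pp π l (a * t + τ)‖ ^ 4) + 8 * C0 ^ 4 * T := by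
        rw [intervalIntegral.integral_add (f := fun t : ℝ => 8 * ‖Pp π l (a * t + τ)‖ ^ 4)
          (g := fun _ : ℝ => 8 * C0 ^ 4)
          ((((Pp_cont π l a τ).norm.pow 4).const_mul 8).intervalIntegrable _ _)
          (continuous_const.intervalIntegrable _ _), intervalIntegral.integral_const_mul,
          intervalIntegral.integral_const]
        simp only [smul_eq_mul]
        ring
    _ ≤ 8 * (99 * T) + 8 * C0 ^ 4 * T := by gcongr
    _ = (8 * 99 + 8 * C0 ^ 4) * T := by ring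

end Pool.Agent.H39.PP
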